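import Pool.Agent.H5.OR.Targets

/-!
# Whitehead automorphisms (row WA of the board org)
-/

set_option autoImplicit false

open scoped Classical
open ORg

namespace Pool.Agent.H17.ORW

variable {X : Type}

theorem lw_true (i : X) : lw (i, true) = FreeGroup.of i := rfl

theorem lw_false (i : X) : lw (i, false) = (FreeGroup.of i)⁻¹ := by
  rw [← lw_true]
  unfold lw
  rw [FreeGroup.inv_mk]
  rfl

theorem lw_nv (z : X × Bool) : lw (nv z) = (lw z)⁻¹ := by
  obtain ⟨i, b⟩ := z
  cases b
  · have h : nv (i, false) = (i, true) := rfl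
    rw [h, lw_true, lw_false, inv_inv]
  · have h : nv (i, true) = (i, false) := rfl
    rw [h, lw_true, lw_false]

/-- the value on a generator -/
noncomputable def gen (A : Set (X × Bool)) (x : X × Bool) (y : FreeGroup X) (i : X) :
    FreeGroup X :=
  if i = x.1 then FreeGroup.of i else
    (if (i, true) ∈ A then y else 1) * FreeGroup.of i * (if (i, false) ∈ A then y else 1)⁻¹

/-- the homomorphism -/
noncomputable def hm (A : Set (X × Bool)) (x : X × Bool) (y : FreeGroup X) :
    FreeGroup X →* FreeGroup X := FreeGroup.lift (gen A x y)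

theorem hm_of (A : Set (X × Bool)) (x : X × Bool) (y : FreeGroup X) (i : X) :
    hm A x y (FreeGroup.of i) = gen A x y i := by
  unfold hm
  exact FreeGroup.lift_apply_of

theorem hm_x (A : Set (X × Bool)) (x : X × Bool) (y : FreeGroup X) :
    hm A x y (lw x) = lw x := by
  have h : hm A x y (FreeGroup.of x.1) = FreeGroup.of x.1 := by
    rw [hm_of]
    unfold gen
    rw [if_pos rfl]
  obtain ⟨i, b⟩ := x
  cases b
  · rw [lw_false, map_inv, h]
  · rw [lw_true, h]

theorem hm_comp (A : Set (X × Bool)) (x : X × Bool) (y y' : FreeGroup X)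
    (hy : ∀ t, hm A x t y = y) (hyy : y * y' = 1) :
    (hm A x y').comp (hm A x y) = MonoidHom.id _ := by
  refine FreeGroup.ext_hom _ _ fun i => ?_
  rw [MonoidHom.comp_apply, hm_of, MonoidHom.id_apply]
  unfold gen
  by_cases hi : i = x.1
  · rw [if_pos hi, hm_of]
    unfold gen
    rw [if_pos hi]
  · rw [if_neg hi, map_mul, map_mul, map_inv, hm_of]
    unfold gen
    rw [if_neg hi]
    have h1 : ∀ p : Prop, hm A x y' (if p then y else 1) * (if p then y' else 1) = 1 := by
      intro p
      by_cases hp : p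
      · rw [if_pos hp, if_pos hp, hy, hyy]
      · rw [if_neg hp, if_neg hp, map_one, one_mul]
    have h2 := h1 ((i, true) ∈ A)
    have h3 := h1 ((i, false) ∈ A)
    have h4 : (if (i, true) ∈ A then y' else 1) = (hm A x y' (if (i, true) ∈ A then y else 1))⁻¹ :=
      (inv_eq_of_mul_eq_one_right h2).symm
    have h5 : (if (i, false) ∈ A then y' else 1) =
        (hm A x y' (if (i, false) ∈ A then y else 1))⁻¹ :=
      (inv_eq_of_mul_eq_one_right h3).symm
    rw [h4, h5]
    group

theorem pf_WA : T_WA := by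
  intro X A x hx hnx
  have hinv : ∀ t, hm A x t (lw x)⁻¹ = (lw x)⁻¹ := fun t => by rw [map_inv, hm_x]
  refine ⟨MonoidHom.toMulEquiv (hm A x (lw x)) (hm A x (lw x)⁻¹)
    (hm_comp A x _ _ (hm_x A x) (mul_inv_cancel _)) (hm_comp A x _ _ hinv (inv_mul_cancel _)), ?_⟩
  intro z
  change hm A x (lw x) (lw z) = _
  by_cases hz : z = x
  · subst hz
    rw [hm_x]
    unfold sg tt
    rw [if_pos hx, if_pos (Or.inl rfl), if_neg hnx, inv_one, mul_one, mul_one]
  by_cases hz' : z = nv x
  · subst hz'
    have hnn : nv (nv x) = x := by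
      obtain ⟨i, b⟩ := x
      cases b <;> rfl
    rw [lw_nv, map_inv, hm_x]
    unfold sg tt
    rw [if_neg hnx, if_pos (Or.inr rfl), hnn, if_pos hx, one_mul, one_mul]
  have hi : z.1 ≠ x.1 := by
    intro h
    obtain ⟨i, b⟩ := z
    obtain ⟨j, c⟩ := x
    simp only at h
    subst h
    unfold nv at hz'
    revert hz hz'
    cases b <;> cases c <;> simp
  unfold sg tt
  rw [if_neg (not_or.2 ⟨hz, hz'⟩)]
  obtain ⟨i, b⟩ := z
  simp only at hi
  cases b
  · rw [lw_false, map_inv, hm_of]
    unfold gen
    rw [if_neg hi]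
    have h : nv (i, false) = (i, true) := rfl
    rw [h]
    group
  · rw [lw_true, hm_of]
    unfold gen
    rw [if_neg hi]
    rfl

end Pool.Agent.H17.ORW
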